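import Mathlib
import Pool.Agent.H92.SG.Stmts

namespace Pool.Agent.H15.SG

open Pool.Agent.H92.SG

theorem sesq_red {O k : Type} [CommRing O] [Field k] (red : O →+* k) (c : O →+* O) (cb : k →+* k)
    (hc : ∀ x, red (c x) = cb (red x)) {κ : Type} [Fintype κ] (M : Matrix κ κ O) (u v : κ → O) :
    sesq cb (M.map red) (fun p => red (u p)) (fun p => red (v p)) = red (sesq c M u v) := by
  simp [sesq, map_sum, hc]

theorem sesq_smul_left {O : Type} [CommRing O] (c : O →+* O) {κ : Type} [Fintype κ]
    (M : Matrix κ κ O) (r : O) (u v : κ → O) :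
    sesq c M (fun p => r * u p) v = c r * sesq c M u v := by
  simp only [sesq, map_mul, Finset.mul_sum]
  refine Finset.sum_congr rfl fun p _ => Finset.sum_congr rfl fun q _ => by ring

theorem sesq_smul_right {O : Type} [CommRing O] (c : O →+* O) {κ : Type} [Fintype κ]
    (M : Matrix κ κ O) (r : O) (u v : κ → O) :
    sesq c M u (fun p => r * v p) = r * sesq c M u v := by
  simp only [sesq, Finset.mul_sum]
  refine Finset.sum_congr rfl fun p _ => Finset.sum_congr rfl fun q _ => by ring

/-- The reduction of a linear map. -/
noncomputable def redL {O k : Type} [CommRing O] [Field k] (red : O →+* k) {ι κ : Type} [Fintype ι]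
    [DecidableEq ι] (D : (ι → O) →ₗ[O] (κ → O)) : (ι → k) →ₗ[k] (κ → k) :=
  Matrix.mulVecLin ((LinearMap.toMatrix' D).map red)

theorem redL_apply {O k : Type} [CommRing O] [Field k] (red : O →+* k) {ι κ : Type} [Fintype ι]
    [DecidableEq ι] (D : (ι → O) →ₗ[O] (κ → O)) (x : ι → O) :
    redL red D (fun i => red (x i)) = fun p => red (D x p) := by
  funext p
  have h : D x p = ((LinearMap.toMatrix' D).mulVec x) p := by
    rw [← Matrix.toLin'_apply, Matrix.toLin'_toMatrix']
  rw [h]
  simp [redL, Matrix.mulVec, dotProduct, map_sum]

theorem ABSB_thm (hSYL : SylStmt) (hSAT : SatStmt) : AbsBStmt := by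
  intro O k _ _ _ _ red π hsurj hπ hred c cb hc hcb hcπ K ε κ _ _ _ _ _ _ D M hM hl hr hinj
  classical
  -- the embedding of the extra strands
  set E : (ε → O) →ₗ[O] (K ⊕ ε → O) :=
    { toFun := fun e => Sum.elim 0 e
      map_add' := by
        intro a b; funext i; rcases i with i | i <;> simp
      map_smul' := by
        intro r a; funext i; rcases i with i | i <;> simp } with hE
  have hEl : ∀ e i, E e (Sum.inl i) = 0 := fun e i => rfl
  have hEr : ∀ e i, E e (Sum.inr i) = e i := fun e i => rfl
  have hfinj : Function.Injective (D ∘ₗ E) := by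
    rw [injective_iff_map_eq_zero]
    intro e he
    have := hinj (E e) (hEl e) he
    funext i
    rw [← hEr e i, this]; rfl
  obtain ⟨Z, hZcard, hZ⟩ := hSAT O k red π hsurj hπ hred ε κ (D ∘ₗ E) hfinj
  -- lifts
  have hlift : ∀ {ι : Type} (w : ι → k), ∃ x : ι → O, (fun i => red (x i)) = w := by
    intro ι w
    choose g hg using hsurj
    exact ⟨fun i => g (w i), funext fun i => hg _⟩
  have hπn : ∀ n : ℕ, π ^ n ≠ 0 := fun n => pow_ne_zero n hπ.ne_zero
  have hcπn : ∀ n : ℕ, c (π ^ n) = π ^ n := fun n => by rw [map_pow, hcπ]
  have hMb : IsUnit (M.map red).det := by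
    have : (M.map red).det = red M.det := by
      rw [RingHom.map_det]; rfl
    rw [this]; exact hM.map red
  -- the reduction
  set Db := redL red D with hDb
  -- the restriction to the knot strands
  set R : (K ⊕ ε → k) →ₗ[k] (K → k) := LinearMap.funLeft k k Sum.inl with hR
  have hRa : ∀ w i, R w i = w (Sum.inl i) := fun w i => rfl
  have hRsurj : Function.Surjective R := by
    intro v
    exact ⟨Sum.elim v 0, by funext i; simp [hRa]⟩
  have hRker : Module.finrank k (LinearMap.ker R) = Fintype.card ε := by
    have h1 := LinearMap.finrank_range_add_finrank_ker R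
    rw [LinearMap.range_eq_top.mpr hRsurj, finrank_top, Module.finrank_fintype_fun_eq_card,
      Module.finrank_fintype_fun_eq_card, Fintype.card_sum] at h1
    omega
  refine ⟨(Z.comap Db).map R, ?_, ?_⟩
  · rintro v ⟨w, hw, rfl⟩
    obtain ⟨x, hx⟩ := hlift w
    obtain ⟨z, n, e, hz, he⟩ := hZ (Db w) hw
    refine ⟨n, fun i => x (Sum.inl i), π ^ n • x - E e, ?_, ?_, ?_⟩
    · intro i; rw [hRa, ← hx]
    · intro i
      simp [hEl]
    · intro p
      have h1 : red (D x p) = red (z p) := by
        rw [hz p, ← hx, hDb, redL_apply]
      have h2 : π ∣ D x p - z p := by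
        rw [← hred, map_sub, h1, sub_self]
      obtain ⟨q, hq⟩ := h2
      have h3 : D (π ^ n • x - E e) p = π ^ n * D x p - π ^ n * z p := by
        rw [map_sub, map_smul, he p]; rfl
      rw [h3, ← mul_sub, hq, pow_succ]
      exact ⟨q, by ring⟩
  · intro T hT
    have hsyl := hSYL k cb hcb (K ⊕ ε) κ Db (M.map red) hMb Z ?_ ?_ ?_ (T.comap R) ?_
    · -- counting
      have hTc : Module.finrank k (T.comap R) = Module.finrank k T + Fintype.card ε := by
        have h1 := LinearMap.finrank_range_add_finrank_ker (R.domRestrict (T.comap R))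
        have h2 : LinearMap.range (R.domRestrict (T.comap R)) = T := by
          ext v
          constructor
          · rintro ⟨⟨w, hw⟩, rfl⟩
            exact hw
          · intro hv
            obtain ⟨w, rfl⟩ := hRsurj v
            exact ⟨⟨w, hv⟩, rfl⟩
        have h3 : Module.finrank k (LinearMap.ker (R.domRestrict (T.comap R))) =
            Module.finrank k (LinearMap.ker R) := by
          refine LinearEquiv.finrank_eq ?_
          refine
            { toFun := fun w => ⟨w.1.1, w.2⟩
              invFun := fun w => ⟨⟨w.1, by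
                have : R w.1 = 0 := w.2
                simp [this]⟩, w.2⟩
              map_add' := fun _ _ => rfl
              map_smul' := fun _ _ => rfl
              left_inv := fun _ => rfl
              right_inv := fun _ => rfl }
        rw [h2, h3, hRker] at h1
        exact h1.symm
      have hSc : Module.finrank k (Z.comap Db) ≤
          Module.finrank k ((Z.comap Db).map R) + Fintype.card ε := by
        have h1 := LinearMap.finrank_range_add_finrank_ker (R.domRestrict (Z.comap Db))
        have h2 : LinearMap.range (R.domRestrict (Z.comap Db)) = (Z.comap Db).map R := by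
          ext v
          constructor
          · rintro ⟨⟨w, hw⟩, rfl⟩
            exact ⟨w, hw, rfl⟩
          · rintro ⟨w, hw, rfl⟩
            exact ⟨⟨w, hw⟩, rfl⟩
        have h3 : Module.finrank k (LinearMap.ker (R.domRestrict (Z.comap Db))) ≤
            Module.finrank k (LinearMap.ker R) := by
          refine LinearMap.finrank_le_finrank_of_injective (f :=
            { toFun := fun w => ⟨w.1.1, w.2⟩
              map_add' := fun _ _ => rfl
              map_smul' := fun _ _ => rfl }) ?_
          intro a b hab
          apply Subtype.ext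
          apply Subtype.ext
          exact congrArg (fun w : LinearMap.ker R => w.1) hab
        rw [h2] at h1
        rw [hRker] at h3
        omega
      rw [Fintype.card_sum, hTc] at hsyl
      omega
    · intro zb hzb xb
      obtain ⟨z, n, e, hz, he⟩ := hZ zb hzb
      obtain ⟨x, rfl⟩ := hlift xb
      have hz' : zb = fun p => red (z p) := funext fun p => (hz p).symm
      rw [hz', hDb, redL_apply, sesq_red red c cb hc]
      have h0 := hl (E e) (hEl e) x
      have h1 : D (E e) = fun p => π ^ n * z p := funext fun p => (he p).symm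
      rw [h1, sesq_smul_left, hcπn] at h0
      rw [(mul_eq_zero.mp h0).resolve_left (hπn n), map_zero]
    · intro zb hzb xb
      obtain ⟨z, n, e, hz, he⟩ := hZ zb hzb
      obtain ⟨x, rfl⟩ := hlift xb
      have hz' : zb = fun p => red (z p) := funext fun p => (hz p).symm
      rw [hz', hDb, redL_apply, sesq_red red c cb hc]
      have h0 := hr (E e) (hEl e) x
      have h1 : D (E e) = fun p => π ^ n * z p := funext fun p => (he p).symm
      rw [h1, sesq_smul_right] at h0
      rw [(mul_eq_zero.mp h0).resolve_left (hπn n), map_zero]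
    · intro zb hzb zb' hzb'
      obtain ⟨z, n, e, hz, he⟩ := hZ zb hzb
      obtain ⟨z2, n2, e2, hz2, he2⟩ := hZ zb' hzb'
      have hz' : zb = fun p => red (z p) := funext fun p => (hz p).symm
      have hz2' : zb' = fun p => red (z2 p) := funext fun p => (hz2 p).symm
      rw [hz', hz2', sesq_red red c cb hc]
      have h0 := hl (E e) (hEl e) (E e2)
      have h1 : D (E e) = fun p => π ^ n * z p := funext fun p => (he p).symm
      have h2 : D (E e2) = fun p => π ^ n2 * z2 p := funext fun p => (he2 p).symm
      rw [h1, h2, sesq_smul_left, sesq_smul_right, hcπn] at h0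
      rw [(mul_eq_zero.mp ((mul_eq_zero.mp h0).resolve_left (hπn n))).resolve_left (hπn n2),
        map_zero]
    · intro xb hxb yb
      obtain ⟨x, rfl⟩ := hlift xb
      obtain ⟨y, rfl⟩ := hlift yb
      rw [hDb, redL_apply, redL_apply, sesq_red red c cb hc]
      exact hT x hxb y

end Pool.Agent.H15.SG
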