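import Mathlib
import Pool.Agent.H92.SG.Stmts

namespace Pool.Agent.H15.SG

open Pool.Agent.H92.SG

/-- The vector `w (e_i + e_{i+1})`. -/
def P0 (A : Type) [CommRing A] (i : ℕ) : (Fin 1 → A) →ₗ[A] (ℕ → A) where
  toFun u := fun j => if j = i ∨ j = i + 1 then u 0 else 0
  map_add' u v := by
    funext j; simp only [Pi.add_apply]; split_ifs <;> simp
  map_smul' r u := by
    funext j; simp only [Pi.smul_apply, smul_eq_mul, RingHom.id_apply]; split_ifs <;> simp

/-- The functional `a_{i+1} - a_i`. -/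
def Q0 (A : Type) [CommRing A] (i : ℕ) : (ℕ → A) →ₗ[A] (Fin 1 → A) where
  toFun a := fun _ => a (i + 1) - a i
  map_add' u v := by
    funext j; simp only [Pi.add_apply]; ring
  map_smul' r u := by
    funext j; simp only [Pi.smul_apply, smul_eq_mul, RingHom.id_apply]; ring

theorem omZ_succ {A : Type} [CommRing A] (N : ℕ) (x y : ℕ → A) :
    omZ (N + 1) x y = omZ N x y +
      ∑ l ∈ Finset.range N, (-1) ^ (l + N) * (x l * y N - x N * y l) := by
  simp only [omZ]
  rw [Finset.sum_range_succ]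

theorem P0_apply {A : Type} [CommRing A] (i : ℕ) (u : Fin 1 → A) (j : ℕ) :
    P0 A i u j = if j = i ∨ j = i + 1 then u 0 else 0 := rfl

theorem omZ_P0 {A : Type} [CommRing A] (i N : ℕ) (h : i + 1 < N) (u : Fin 1 → A) (y : ℕ → A) :
    omZ N (P0 A i u) y = -(u 0) * (y (i + 1) - y i) := by
  obtain ⟨d, rfl⟩ : ∃ d, N = i + 2 + d := ⟨N - (i + 2), by omega⟩
  clear h
  induction d with
  | zero =>
    have h0 : omZ i (P0 A i u) y = 0 := by
      refine Finset.sum_eq_zero fun j hj => Finset.sum_eq_zero fun l hl => ?_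
      rw [Finset.mem_range] at hj hl
      rw [P0_apply, P0_apply, if_neg (by omega), if_neg (by omega)]
      ring
    have h1 : ∑ l ∈ Finset.range i, (-1 : A) ^ (l + i) * (P0 A i u l * y i - P0 A i u i * y l) =
        -(∑ l ∈ Finset.range i, (-1 : A) ^ (l + i) * (u 0 * y l)) := by
      rw [← Finset.sum_neg_distrib]
      refine Finset.sum_congr rfl fun l hl => ?_
      rw [Finset.mem_range] at hl
      rw [P0_apply, P0_apply, if_neg (by omega), if_pos (Or.inl rfl)]
      ring
    have h2 : ∑ l ∈ Finset.range i, (-1 : A) ^ (l + (i + 1)) *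
        (P0 A i u l * y (i + 1) - P0 A i u (i + 1) * y l) =
        ∑ l ∈ Finset.range i, (-1 : A) ^ (l + i) * (u 0 * y l) := by
      refine Finset.sum_congr rfl fun l hl => ?_
      rw [Finset.mem_range] at hl
      rw [P0_apply, P0_apply, if_neg (by omega), if_pos (Or.inr rfl), ← add_assoc, pow_succ]
      ring
    rw [show i + 2 + 0 = (i + 1) + 1 by ring, omZ_succ, omZ_succ, h0, h1, Finset.sum_range_succ, h2,
      P0_apply, P0_apply, if_pos (Or.inl rfl), if_pos (Or.inr rfl)]
    have h3 : (-1 : A) ^ (i + (i + 1)) = -1 := by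
      rw [show i + (i + 1) = 2 * i + 1 by ring, pow_succ, pow_mul]; simp
    rw [h3]
    ring
  | succ d ih =>
    rw [show i + 2 + (d + 1) = (i + 2 + d) + 1 by ring, omZ_succ, ih]
    have h1 : ∑ l ∈ Finset.range (i + 2 + d), (-1 : A) ^ (l + (i + 2 + d)) *
        (P0 A i u l * y (i + 2 + d) - P0 A i u (i + 2 + d) * y l) = 0 := by
      have h2 : ∀ l ∈ Finset.range (i + 2 + d), (-1 : A) ^ (l + (i + 2 + d)) *
        (P0 A i u l * y (i + 2 + d) - P0 A i u (i + 2 + d) * y l) =
          (if l = i then (-1 : A) ^ (i + (i + 2 + d)) * (u 0 * y (i + 2 + d)) else 0) +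
          (if l = i + 1 then (-1 : A) ^ (i + 1 + (i + 2 + d)) * (u 0 * y (i + 2 + d)) else 0) := by
        intro l _
        rw [P0_apply, P0_apply, if_neg (show ¬ (i + 2 + d = i ∨ i + 2 + d = i + 1) by omega)]
        by_cases ha : l = i
        · subst ha
          rw [if_pos (Or.inl rfl), if_pos rfl, if_neg (by omega)]
          ring
        · by_cases hb : l = i + 1
          · subst hb
            rw [if_pos (Or.inr rfl), if_neg (by omega), if_pos rfl]
            ring
          · rw [if_neg (by omega), if_neg ha, if_neg hb]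
            ring
      rw [Finset.sum_congr rfl h2, Finset.sum_add_distrib, Finset.sum_ite_eq', Finset.sum_ite_eq',
        if_pos (Finset.mem_range.mpr (by omega)), if_pos (Finset.mem_range.mpr (by omega))]
      rw [show i + 1 + (i + 2 + d) = (i + (i + 2 + d)) + 1 by ring, pow_succ]
      ring
    rw [h1, add_zero]

theorem DIHQ_thm (hA : DihA) (hB : DihB) (hF : DihFormStmt) : DihBandStmt := by
  intro A _ N x hx
  obtain ⟨w, hw, i, hi, hx⟩ := hx
  -- common part
  have key : ∀ (s : B) (ε : A), (ε = 1 ∨ ε = -1) →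
      (∀ a, dih A s a = a + P0 A i (ε • Q0 A i a)) → x = w * s * w⁻¹ →
      ∃ (P : (Fin 1 → A) →ₗ[A] (ℕ → A)) (Q : (ℕ → A) →ₗ[A] (Fin 1 → A))
        (U : Matrix (Fin 1) (Fin 1) A),
      IsUnit U.det ∧ (∀ a, dih A x a = a + P (Q a)) ∧
      (∀ u y, omZ N (P u) y = ∑ k, u k * (U.mulVec (Q y)) k) ∧
      (∀ u i, N ≤ i → P u i = 0) ∧ (∀ a a', (∀ i < N, a i = a' i) → Q a = Q a') := by
    intro s ε hε hs hxs
    have hε2 : ε * ε = 1 := by rcases hε with rfl | rfl <;> ring
    refine ⟨(dih A w).toLinearMap ∘ₗ P0 A i, ε • (Q0 A i ∘ₗ (dih A w⁻¹).toLinearMap),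
      Matrix.of ![![-ε]], ?_, ?_, ?_, ?_, ?_⟩
    · rw [Matrix.det_fin_one]
      exact IsUnit.of_mul_eq_one (-ε) (by
        simp only [Matrix.of_apply, Matrix.cons_val_fin_one]
        linear_combination hε2)
    · intro a
      have h1 : dih A x a = dih A w (dih A s (dih A w⁻¹ a)) := by
        rw [hxs, map_mul, map_mul]; rfl
      have h2 : dih A w (dih A w⁻¹ a) = a := by
        have : dih A (w * w⁻¹) a = dih A w (dih A w⁻¹ a) := by rw [map_mul]; rfl
        rw [← this, mul_inv_cancel, map_one]; rfl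
      rw [h1, hs, map_add, h2]
      rfl
    · intro u y
      have h2 : dih A w (dih A w⁻¹ y) = y := by
        have : dih A (w * w⁻¹) y = dih A w (dih A w⁻¹ y) := by rw [map_mul]; rfl
        rw [← this, mul_inv_cancel, map_one]; rfl
      have h3 : omZ N (dih A w (P0 A i u)) y = omZ N (P0 A i u) (dih A w⁻¹ y) := by
        conv_lhs => rw [← h2]
        exact hF A N w hw _ _
      have h4 : ((dih A w).toLinearMap ∘ₗ P0 A i) u = dih A w (P0 A i u) := rfl
      rw [h4, h3, omZ_P0 i N hi]
      simp only [Finset.univ_unique, Fin.default_eq_zero, Finset.sum_singleton, Matrix.mulVec,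
        dotProduct, Matrix.of_apply, Matrix.cons_val_fin_one]
      have h5 : ((ε • (Q0 A i ∘ₗ (dih A w⁻¹).toLinearMap)) y) 0 =
        ε * (dih A w⁻¹ y (i + 1) - dih A w⁻¹ y i) := rfl
      rw [h5]
      linear_combination (u 0) * (dih A w⁻¹ y (i + 1) - dih A w⁻¹ y i) * hε2
    · intro u j hj
      have h4 : ((dih A w).toLinearMap ∘ₗ P0 A i) u = dih A w (P0 A i u) := rfl
      rw [h4, hB.loc1 A N w hw _ j hj, P0_apply, if_neg (by omega)]
    · intro a a' haa
      have h5 : ∀ b, (ε • (Q0 A i ∘ₗ (dih A w⁻¹).toLinearMap)) b =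
        fun _ => ε * (dih A w⁻¹ b (i + 1) - dih A w⁻¹ b i) := fun b => rfl
      rw [h5, h5, hB.loc2 A N w⁻¹ (inv_mem hw) a a' haa (i + 1) hi,
        hB.loc2 A N w⁻¹ (inv_mem hw) a a' haa i (by omega)]
  rcases hx with hx | hx
  · refine key (σ i) 1 (Or.inl rfl) ?_ hx
    intro a
    rw [hA.σ_apply]
    funext j
    simp only [Pi.add_apply, one_smul, P0_apply]
    have : (Q0 A i a) 0 = a (i + 1) - a i := rfl
    rw [this]
    by_cases h1 : j = i
    · subst h1; simp
    · by_cases h2 : j = i + 1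
      · subst h2; simp; ring
      · simp [h1, h2]
  · refine key (σ i)⁻¹ (-1) (Or.inr rfl) ?_ hx
    intro a
    rw [hA.σ_inv_apply]
    funext j
    simp only [Pi.add_apply, P0_apply]
    have : ((-1 : A) • Q0 A i a) 0 = a i - a (i + 1) := by
      have : (Q0 A i a) 0 = a (i + 1) - a i := rfl
      rw [Pi.smul_apply, this, smul_eq_mul]; ring
    rw [this]
    by_cases h1 : j = i
    · subst h1; simp; ring
    · by_cases h2 : j = i + 1
      · subst h2; simp
      · simp [h1, h2]

end Pool.Agent.H15.SG
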